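import Pool.Agent.Helper68.KL.Local

/-!
# Gradings by an element: generation by the local part, and the isomorphism theorem

`L` simple with nondegenerate Killing form, `H ∈ L` with `ad H` diagonalisable with integer eigenvalues, `L_n` the eigenspaces.
TRANSITIVITY: an element of `L_n`, `n ≥ 2`, which commutes with `L_(-1)` is `0`, and the same for `L_(-n)` and `L_1`. Then `L` is generated by
`L_(-1) + L_0 + L_1`: if `L_m` is generated for `0 ≤ m < n` and `y ∈ L_(-n)` is orthogonal to `[L_1, L_(n-1)]`, then `[y, L_1]` is orthogonal to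
`L_(n-1)`, so `[y, L_1] = 0`, `y = 0`. Hence (`local_iso`) an isomorphism of the local parts extends.
-/

set_option autoImplicit false

namespace Pool.Agent.Helper68.KL

open Module

section abstract_grading

variable {K L : Type*} [Field K] [LieRing L] [LieAlgebra K L]

/-- a grading with an invariant nondegenerate form pairing `G n` with `G (-n)` -/
structure Grading (G : ℤ → Submodule K L) (B : L → L → K) : Prop where
  lie : ∀ m n : ℤ, ∀ x ∈ G m, ∀ y ∈ G n, ⁅x, y⁆ ∈ G (m + n)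
  top : ⨆ n, G n = ⊤
  ind : iSupIndep G
  add : ∀ x y z, B x (y + z) = B x y + B x z
  smul : ∀ (c : K) (x y), B x (c • y) = c * B x y
  symm : ∀ x y, B x y = B y x
  inv : ∀ x y z, B ⁅x, y⁆ z = B x ⁅y, z⁆
  orth : ∀ m n : ℤ, m + n ≠ 0 → ∀ x ∈ G m, ∀ y ∈ G n, B x y = 0
  nondeg : ∀ x, (∀ y, B x y = 0) → x = 0

variable {G : ℤ → Submodule K L} {B : L → L → K}

/-- nondegeneracy on one degree -/
theorem Grading.nondeg_at (h : Grading G B) {n : ℤ} {x : L} (hx : x ∈ G n) (h0 : ∀ y ∈ G (-n), B x y = 0) : x = 0 := by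
  apply h.nondeg
  intro y
  have hy : y ∈ ⨆ n, G n := by rw [h.top]; exact Submodule.mem_top
  have hz : B x 0 = 0 := by
    have := h.smul 0 x 0
    rw [zero_smul, zero_mul] at this
    exact this
  refine Submodule.iSup_induction G (motive := fun y => B x y = 0) hy ?_ hz ?_
  · intro m y hy
    by_cases hm : n + m = 0
    · have : m = -n := by omega
      subst this
      exact h0 y hy
    · exact h.orth n m hm x hx y hy
  · intro y z h1 h2
    rw [h.add, h1, h2, add_zero]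

end abstract_grading

section gen

variable {K L : Type*} [Field K] [LieRing L] [LieAlgebra K L] [FiniteDimensional K L]
variable {G : ℤ → Submodule K L} {B : L → L → K}

/-- the form as a linear map in the second variable -/
noncomputable def Grading.lin (h : Grading G B) (x : L) : L →ₗ[K] K where
  toFun := B x
  map_add' := h.add x
  map_smul' := fun c y => by rw [h.smul]; rfl

/-- a subspace `D` of `G n` which is not everything is orthogonal to some nonzero element of `G (-n)` -/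
theorem Grading.exists_orth (h : Grading G B) {n : ℤ} {D : Submodule K L} (hD : D ≤ G n) (hne : ¬ G n ≤ D) :
    ∃ y ∈ G (-n), y ≠ 0 ∧ ∀ x ∈ D, B y x = 0 := by
  -- the map `G (-n) → Dual (G n)` is injective, `G n → Dual (G (-n))` too, so both are bijective
  let Φ : G (-n) →ₗ[K] Dual K (G n) :=
    { toFun := fun y => (h.lin (y : L)).comp (G n).subtype
      map_add' := fun y z => by
        ext x
        show B ((y : L) + z) x = B y x + B z x
        rw [h.symm, h.add, h.symm (x : L) y, h.symm (x : L) z]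
      map_smul' := fun c y => by
        ext x
        show B (c • (y : L)) x = c * B y x
        rw [h.symm, h.smul, h.symm (x : L) y] }
  let Ψ : G n →ₗ[K] Dual K (G (-n)) :=
    { toFun := fun y => (h.lin (y : L)).comp (G (-n)).subtype
      map_add' := fun y z => by
        ext x
        show B ((y : L) + z) x = B y x + B z x
        rw [h.symm, h.add, h.symm (x : L) y, h.symm (x : L) z]
      map_smul' := fun c y => by
        ext x
        show B (c • (y : L)) x = c * B y x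
        rw [h.symm, h.smul, h.symm (x : L) y] }
  have hΦ : Function.Injective Φ := by
    rw [← LinearMap.ker_eq_bot, LinearMap.ker_eq_bot']
    intro y hy
    apply Subtype.ext
    refine h.nondeg_at y.2 ?_
    intro x hx
    rw [neg_neg] at hx
    exact LinearMap.congr_fun hy (⟨x, hx⟩ : G n)
  have hΨ : Function.Injective Ψ := by
    rw [← LinearMap.ker_eq_bot, LinearMap.ker_eq_bot']
    intro y hy
    apply Subtype.ext
    refine h.nondeg_at y.2 ?_
    intro x hx
    exact LinearMap.congr_fun hy (⟨x, hx⟩ : G (-n))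
  have hd : finrank K (G (-n)) = finrank K (Dual K (G n)) := by
    have h1 := LinearMap.finrank_le_finrank_of_injective hΦ
    have h2 := LinearMap.finrank_le_finrank_of_injective hΨ
    rw [Subspace.dual_finrank_eq] at h1 h2 ⊢
    omega
  have hΦs : Function.Surjective Φ := (LinearMap.injective_iff_surjective_of_finrank_eq_finrank hd).1 hΦ
  -- a functional on `G n` vanishing on `D`
  obtain ⟨x0, hx0, hx0D⟩ := Set.not_subset.1 hne
  have hx0' : (⟨x0, hx0⟩ : G n) ∉ D.comap (G n).subtype := hx0D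
  obtain ⟨φ, hφ1, hφ2⟩ := Submodule.exists_le_ker_of_notMem hx0'
  obtain ⟨y, hy⟩ := hΦs φ
  refine ⟨y, y.2, ?_, ?_⟩
  · intro hy0
    apply hφ1
    rw [← hy]
    show B (y : L) x0 = 0
    rw [hy0, h.symm]
    have := h.smul 0 x0 0
    rw [zero_smul, zero_mul] at this
    exact this
  · intro x hx
    have h1 : (⟨x, hD hx⟩ : G n) ∈ LinearMap.ker φ := hφ2 hx
    rw [LinearMap.mem_ker, ← hy] at h1
    exact h1

/-- generation of the positive degrees -/
theorem Grading.gen_pos (h : Grading G B)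
    (tr : ∀ n : ℤ, 2 ≤ n → ∀ y ∈ G (-n), (∀ x ∈ G 1, ⁅y, x⁆ = 0) → y = 0) (A : LieSubalgebra K L)
    (h1 : ∀ x ∈ G 1, x ∈ A) : ∀ n : ℕ, ∀ x ∈ G (n + 1), x ∈ A := by
  intro n
  induction n with
  | zero => intro x hx; exact h1 x (by simpa using hx)
  | succ n ih =>
    by_contra hcon
    have hne : ¬ G ((n + 1 : ℕ) + 1) ≤ G ((n + 1 : ℕ) + 1) ⊓ A.toSubmodule := by
      intro hle
      exact hcon fun x hx => (hle hx).2
    obtain ⟨y, hy, hy0, hyo⟩ := h.exists_orth inf_le_left hne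
    apply hy0
    refine tr _ (by push_cast; omega) y hy ?_
    intro x hx
    have hm : ⁅y, x⁆ ∈ G (-((n : ℤ) + 1)) := by
      have := h.lie _ _ y hy x hx
      have e : -(((n + 1 : ℕ) : ℤ) + 1) + 1 = -((n : ℤ) + 1) := by push_cast; ring
      rwa [e] at this
    refine h.nondeg_at hm ?_
    intro z hz
    rw [neg_neg] at hz
    rw [h.inv]
    apply hyo
    refine ⟨?_, LieSubalgebra.lie_mem A (h1 x hx) (ih z hz)⟩
    have := h.lie _ _ x hx z hz
    have e : 1 + ((n : ℤ) + 1) = ((n + 1 : ℕ) : ℤ) + 1 := by push_cast; ring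
    rwa [e] at this

omit [FiniteDimensional K L] in
/-- the reversed grading -/
theorem Grading.rev (h : Grading G B) : Grading (fun n => G (-n)) B where
  lie := fun m n x hx y hy => by
    have := h.lie _ _ x hx y hy
    have e : -m + -n = -(m + n) := by ring
    rwa [e] at this
  top := by
    rw [← h.top]
    exact (Equiv.neg ℤ).iSup_comp (g := G)
  ind := h.ind.comp neg_injective
  add := h.add
  smul := h.smul
  symm := h.symm
  inv := h.inv
  orth := fun m n hmn x hx y hy => h.orth _ _ (by omega) x hx y hy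
  nondeg := h.nondeg

/-- a transitive graded Lie algebra is generated by its local part -/
theorem Grading.gen (h : Grading G B)
    (tr : ∀ n : ℤ, 2 ≤ n → ∀ y ∈ G (-n), (∀ x ∈ G 1, ⁅y, x⁆ = 0) → y = 0)
    (tr' : ∀ n : ℤ, 2 ≤ n → ∀ y ∈ G n, (∀ x ∈ G (-1), ⁅y, x⁆ = 0) → y = 0) :
    LieSubalgebra.lieSpan K L ((G (-1) : Set L) ∪ G 0 ∪ G 1) = ⊤ := by
  set A := LieSubalgebra.lieSpan K L ((G (-1) : Set L) ∪ G 0 ∪ G 1) with hA
  have h1 : ∀ x ∈ G 1, x ∈ A := fun x hx => LieSubalgebra.subset_lieSpan (Or.inr hx)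
  have h0 : ∀ x ∈ G 0, x ∈ A := fun x hx => LieSubalgebra.subset_lieSpan (Or.inl (Or.inr hx))
  have hm : ∀ x ∈ G (-1), x ∈ A := fun x hx => LieSubalgebra.subset_lieSpan (Or.inl (Or.inl hx))
  have hp := h.gen_pos tr A h1
  have hn := h.rev.gen_pos (fun n hn y hy hyx => tr' n hn y (by simpa using hy) hyx) A hm
  have hall : ∀ n : ℤ, G n ≤ A.toSubmodule := by
    intro n x hx
    rcases lt_trichotomy n 0 with hn0 | hn0 | hn0
    · obtain ⟨k, hk⟩ : ∃ k : ℕ, n = -((k : ℤ) + 1) := ⟨(-n - 1).toNat, by omega⟩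
      subst hk
      exact hn k x hx
    · subst hn0
      exact h0 x hx
    · obtain ⟨k, hk⟩ : ∃ k : ℕ, n = (k : ℤ) + 1 := ⟨(n - 1).toNat, by omega⟩
      subst hk
      exact hp k x hx
  rw [← LieSubalgebra.toSubmodule_inj, LieSubalgebra.top_toSubmodule, eq_top_iff, ← h.top]
  exact iSup_le hall

end gen

section tri

variable {K L : Type*} [Field K] [LieRing L] [LieAlgebra K L]
variable {G : ℤ → Submodule K L} {B : L → L → K}

/-- the positive part -/
def Grading.pos (h : Grading G B) : LieSubalgebra K L where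
  toSubmodule := ⨆ n : {n : ℤ // 0 < n}, G n
  lie_mem' := by
    intro x y hx hy
    refine Submodule.iSup_induction (fun n : {n : ℤ // 0 < n} => G n) (motive := fun x => ⁅x, y⁆ ∈ ⨆ n : {n : ℤ // 0 < n}, G n) hx ?_ ?_ ?_
    · intro m x hx
      refine Submodule.iSup_induction (fun n : {n : ℤ // 0 < n} => G n) (motive := fun y => ⁅x, y⁆ ∈ ⨆ n : {n : ℤ // 0 < n}, G n) hy ?_ ?_ ?_
      · intro n y hy
        exact Submodule.mem_iSup_of_mem (⟨m + n, add_pos m.2 n.2⟩ : {n : ℤ // 0 < n}) (h.lie _ _ x hx y hy)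
      · rw [lie_zero]; exact zero_mem _
      · intro y z h1 h2; rw [lie_add]; exact add_mem h1 h2
    · rw [zero_lie]; exact zero_mem _
    · intro x z h1 h2; rw [add_lie]; exact add_mem h1 h2

theorem Grading.mem_pos (h : Grading G B) {x : L} : x ∈ h.pos ↔ x ∈ ⨆ n : {n : ℤ // 0 < n}, G n := Iff.rfl

theorem Grading.tri (h : Grading G B) : ∀ n ∈ h.rev.pos, ∀ x ∈ G 0, ∀ p ∈ h.pos, n + x + p = 0 → x = 0 := by
  intro n hn x hx p hp he
  have h1 : x ∈ ⨆ j ≠ (0 : ℤ), G j := by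
    have e : x = -n + -p := by
      have : x = (n + x + p) + (-n + -p) := by abel
      rw [this, he, zero_add]
    rw [e]
    refine add_mem (neg_mem ?_) (neg_mem ?_)
    · have hn' : n ∈ ⨆ k : {k : ℤ // 0 < k}, G (-k) := hn
      refine (iSup_le ?_ : (⨆ k : {k : ℤ // 0 < k}, G (-k)) ≤ ⨆ j ≠ (0 : ℤ), G j) hn'
      intro k
      exact le_iSup₂_of_le (-(k : ℤ)) (by have := k.2; omega) le_rfl
    · have hp' : p ∈ ⨆ k : {k : ℤ // 0 < k}, G k := hp
      refine (iSup_le ?_ : (⨆ k : {k : ℤ // 0 < k}, G k) ≤ ⨆ j ≠ (0 : ℤ), G j) hp'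
      intro k
      exact le_iSup₂_of_le (k : ℤ) (by have := k.2; omega) le_rfl
  have h2 := (h.ind 0).le_bot ⟨hx, h1⟩
  simpa using h2

end tri

variable {K L L' : Type*} [Field K] [LieRing L] [LieAlgebra K L] [LieRing L'] [LieAlgebra K L']

/-- simple graded Lie algebras with transitive gradings and isomorphic local parts are isomorphic -/
theorem graded_iso [LieAlgebra.IsSimple K L] [LieAlgebra.IsSimple K L'] [FiniteDimensional K L] [FiniteDimensional K L']
    {G : ℤ → Submodule K L} {B : L → L → K} {G' : ℤ → Submodule K L'} {B' : L' → L' → K}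
    (h : Grading G B) (h' : Grading G' B')
    (tr : ∀ n : ℤ, 2 ≤ n → ∀ y ∈ G (-n), (∀ x ∈ G 1, ⁅y, x⁆ = 0) → y = 0)
    (tr' : ∀ n : ℤ, 2 ≤ n → ∀ y ∈ G n, (∀ x ∈ G (-1), ⁅y, x⁆ = 0) → y = 0)
    (ts : ∀ n : ℤ, 2 ≤ n → ∀ y ∈ G' (-n), (∀ x ∈ G' 1, ⁅y, x⁆ = 0) → y = 0)
    (ts' : ∀ n : ℤ, 2 ≤ n → ∀ y ∈ G' n, (∀ x ∈ G' (-1), ⁅y, x⁆ = 0) → y = 0)
    (F : L →ₗ[K] L') (hFm : (G (-1)).map F = G' (-1)) (hF0 : (G 0).map F = G' 0) (hF1 : (G 1).map F = G' 1)
    (h0 : G' 0 ≠ ⊥)
    (b00 : ∀ x ∈ G 0, ∀ y ∈ G 0, F ⁅x, y⁆ = ⁅F x, F y⁆)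
    (b01 : ∀ x ∈ G 0, ∀ y ∈ G 1, F ⁅x, y⁆ = ⁅F x, F y⁆)
    (b0m : ∀ x ∈ G 0, ∀ y ∈ G (-1), F ⁅x, y⁆ = ⁅F x, F y⁆)
    (b1m : ∀ x ∈ G 1, ∀ y ∈ G (-1), F ⁅x, y⁆ = ⁅F x, F y⁆) :
    ∃ e : L ≃ₗ⁅K⁆ L', ∀ x ∈ G (-1) ⊔ G 0 ⊔ G 1, e x = F x := by
  refine local_iso (N := h.rev.pos) (P := h.pos) (N' := h'.rev.pos) (P' := h'.pos) ?_ ?_ ?_ ?_ h.tri h'.tri
    (h.gen tr tr') (h'.gen ts ts') F hFm hF0 hF1 h0 ?_ ?_ ?_ ?_
  · intro x hx
    exact Submodule.mem_iSup_of_mem (⟨1, one_pos⟩ : {n : ℤ // 0 < n}) hx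
  · intro x hx
    exact Submodule.mem_iSup_of_mem (⟨1, one_pos⟩ : {n : ℤ // 0 < n}) hx
  · intro x hx
    exact Submodule.mem_iSup_of_mem (⟨1, one_pos⟩ : {n : ℤ // 0 < n}) hx
  · intro x hx
    exact Submodule.mem_iSup_of_mem (⟨1, one_pos⟩ : {n : ℤ // 0 < n}) hx
  · intro x hx y hy
    exact ⟨by simpa using h.lie _ _ x hx y hy, b00 x hx y hy⟩
  · intro x hx y hy
    exact ⟨by simpa using h.lie _ _ x hx y hy, b01 x hx y hy⟩
  · intro x hx y hy
    exact ⟨by simpa using h.lie _ _ x hx y hy, b0m x hx y hy⟩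
  · intro x hx y hy
    exact ⟨by simpa using h.lie _ _ x hx y hy, b1m x hx y hy⟩

end Pool.Agent.Helper68.KL
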