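import Mathlib

/-!
# Simple Lie algebras with isomorphic local parts are isomorphic (Kac)

`L` has a triangular structure: Lie subalgebras `N` (negative part), `P` (positive part), a subspace `g0` (degree zero),
`N + g0 + P` direct, and subspaces `gm ≤ N`, `g1 ≤ P` (degrees `-1`, `1`); the local part `gm + g0 + g1` generates `L`. A linear map
`F : L → L'` which maps the local part onto the local part of `L'` and respects the brackets inside the local part (degrees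
`0+0`, `0±1`, `1-1`) extends to an isomorphism if `L`, `L'` are simple.
-/

set_option autoImplicit false

namespace Pool.Agent.Helper68.KL

section span

variable {K M : Type*} [Field K] [LieRing M] [LieAlgebra K M]

theorem lie_span_zero {X0 X1 : Submodule K M} (h01 : ∀ x ∈ X0, ∀ y ∈ X1, ⁅x, y⁆ ∈ X1) :
    ∀ x ∈ X0, ∀ z ∈ LieSubalgebra.lieSpan K M (X1 : Set M), ⁅x, z⁆ ∈ LieSubalgebra.lieSpan K M (X1 : Set M) := by
  intro x hx z hz
  induction hz using LieSubalgebra.lieSpan_induction with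
  | mem y hy => exact LieSubalgebra.subset_lieSpan (h01 x hx y hy)
  | zero => rw [lie_zero]; exact zero_mem _
  | add y z _ _ h1 h2 => rw [lie_add]; exact add_mem h1 h2
  | smul a y _ h1 => rw [lie_smul]; exact LieSubalgebra.smul_mem _ a h1
  | lie y z hy hz h1 h2 =>
    rw [leibniz_lie]
    exact add_mem (LieSubalgebra.lie_mem _ h1 hz) (LieSubalgebra.lie_mem _ hy h2)

theorem lie_span_neg {X0 X1 Xm : Submodule K M} (h01 : ∀ x ∈ X0, ∀ y ∈ X1, ⁅x, y⁆ ∈ X1)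
    (hm1 : ∀ x ∈ Xm, ∀ y ∈ X1, ⁅x, y⁆ ∈ X0) :
    ∀ x ∈ Xm, ∀ z ∈ LieSubalgebra.lieSpan K M (X1 : Set M),
      ⁅x, z⁆ ∈ X0 ⊔ (LieSubalgebra.lieSpan K M (X1 : Set M)).toSubmodule := by
  have key : ∀ u ∈ X0 ⊔ (LieSubalgebra.lieSpan K M (X1 : Set M)).toSubmodule,
      ∀ z ∈ LieSubalgebra.lieSpan K M (X1 : Set M), ⁅u, z⁆ ∈ LieSubalgebra.lieSpan K M (X1 : Set M) := by
    intro u hu z hz
    obtain ⟨a, ha, b, hb, rfl⟩ := Submodule.mem_sup.1 hu
    rw [add_lie]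
    exact add_mem (lie_span_zero h01 a ha z hz) (LieSubalgebra.lie_mem _ hb hz)
  intro x hx z hz
  induction hz using LieSubalgebra.lieSpan_induction with
  | mem y hy => exact Submodule.mem_sup_left (hm1 x hx y hy)
  | zero => rw [lie_zero]; exact zero_mem _
  | add y z _ _ h1 h2 => rw [lie_add]; exact add_mem h1 h2
  | smul a y _ h1 => rw [lie_smul]; exact Submodule.smul_mem _ a h1
  | lie y z hy hz h1 h2 =>
    rw [leibniz_lie]
    refine Submodule.mem_sup_right ?_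
    refine add_mem (key _ h1 z hz) ?_
    rw [← lie_skew]
    exact neg_mem (key _ h2 y hy)

/-- the subalgebra generated by a local part is the sum of the three parts -/
theorem lieSpan_tri {X0 X1 Xm : Submodule K M} (h00 : ∀ x ∈ X0, ∀ y ∈ X0, ⁅x, y⁆ ∈ X0)
    (h01 : ∀ x ∈ X0, ∀ y ∈ X1, ⁅x, y⁆ ∈ X1) (h0m : ∀ x ∈ X0, ∀ y ∈ Xm, ⁅x, y⁆ ∈ Xm)
    (h1m : ∀ x ∈ X1, ∀ y ∈ Xm, ⁅x, y⁆ ∈ X0) {z : M}
    (hz : z ∈ LieSubalgebra.lieSpan K M ((Xm : Set M) ∪ X0 ∪ X1)) :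
    z ∈ (LieSubalgebra.lieSpan K M (Xm : Set M)).toSubmodule ⊔ X0 ⊔
      (LieSubalgebra.lieSpan K M (X1 : Set M)).toSubmodule := by
  set A := LieSubalgebra.lieSpan K M (Xm : Set M) with hA
  set B := LieSubalgebra.lieSpan K M (X1 : Set M) with hB
  set S : Submodule K M := A.toSubmodule ⊔ X0 ⊔ B.toSubmodule with hS
  have hAS : ∀ x ∈ A, x ∈ S := fun x hx => Submodule.mem_sup_left (Submodule.mem_sup_left hx)
  have h0S : ∀ x ∈ X0, x ∈ S := fun x hx => Submodule.mem_sup_left (Submodule.mem_sup_right hx)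
  have hBS : ∀ x ∈ B, x ∈ S := fun x hx => Submodule.mem_sup_right hx
  have hm1 : ∀ x ∈ Xm, ∀ y ∈ X1, ⁅x, y⁆ ∈ X0 := by
    intro x hx y hy
    rw [← lie_skew]
    exact neg_mem (h1m y hy x hx)
  have hX0B : X0 ⊔ B.toSubmodule ≤ S := sup_le (fun x hx => h0S x hx) (fun x hx => hBS x hx)
  have hX0A : X0 ⊔ A.toSubmodule ≤ S := sup_le (fun x hx => h0S x hx) (fun x hx => hAS x hx)
  have hXmA : ∀ x ∈ Xm, x ∈ A := fun x hx => LieSubalgebra.subset_lieSpan hx
  have hX1B : ∀ x ∈ X1, x ∈ B := fun x hx => LieSubalgebra.subset_lieSpan hx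
  -- `S` is stable under the local part
  have hst : ∀ w ∈ ((Xm : Set M) ∪ X0 ∪ X1), ∀ u ∈ S, ⁅w, u⁆ ∈ S := by
    intro w hw u hu
    obtain ⟨v, hv, b, hb, rfl⟩ := Submodule.mem_sup.1 hu
    obtain ⟨a, ha, c, hc, rfl⟩ := Submodule.mem_sup.1 hv
    rw [lie_add, lie_add]
    rcases hw with (hw | hw) | hw
    · refine add_mem (add_mem ?_ ?_) ?_
      · exact hAS _ (LieSubalgebra.lie_mem _ (hXmA w hw) ha)
      · rw [← lie_skew]
        exact neg_mem (hAS _ (hXmA _ (h0m c hc w hw)))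
      · exact hX0B (lie_span_neg h01 hm1 w hw b hb)
    · refine add_mem (add_mem ?_ ?_) ?_
      · exact hAS _ (lie_span_zero h0m w hw a ha)
      · exact h0S _ (h00 w hw c hc)
      · exact hBS _ (lie_span_zero h01 w hw b hb)
    · refine add_mem (add_mem ?_ ?_) ?_
      · exact hX0A (lie_span_neg h0m h1m w hw a ha)
      · rw [← lie_skew]
        exact neg_mem (hBS _ (hX1B _ (h01 c hc w hw)))
      · exact hBS _ (LieSubalgebra.lie_mem _ (hX1B w hw) hb)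
  have hall : ∀ w ∈ LieSubalgebra.lieSpan K M ((Xm : Set M) ∪ X0 ∪ X1), ∀ u ∈ S, ⁅w, u⁆ ∈ S := by
    intro w hw
    induction hw using LieSubalgebra.lieSpan_induction with
    | mem y hy => exact hst y hy
    | zero => intro u _; rw [zero_lie]; exact zero_mem _
    | add y z _ _ h1 h2 => intro u hu; rw [add_lie]; exact add_mem (h1 u hu) (h2 u hu)
    | smul a y _ h1 => intro u hu; rw [smul_lie]; exact Submodule.smul_mem _ a (h1 u hu)
    | lie y z _ _ h1 h2 =>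
      intro u hu
      rw [lie_lie]
      exact sub_mem (h1 _ (h2 u hu)) (h2 _ (h1 u hu))
  have : z ∈ S := by
    induction hz using LieSubalgebra.lieSpan_induction with
    | mem y hy =>
      rcases hy with (hy | hy) | hy
      · exact hAS _ (hXmA y hy)
      · exact h0S y hy
      · exact hBS _ (hX1B y hy)
    | zero => exact zero_mem _
    | add y z _ _ h1 h2 => exact add_mem h1 h2
    | smul a y _ h1 => exact Submodule.smul_mem _ a h1
    | lie y z hy _ _ h2 => exact hall y hy z h2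
  exact this

end span

variable {K L L' : Type*} [Field K] [LieRing L] [LieAlgebra K L] [LieRing L'] [LieAlgebra K L']

/-- the graph of `F` over `g` -/
def gr (F : L →ₗ[K] L') (g : Submodule K L) : Submodule K (L × L') := g.map (LinearMap.prod LinearMap.id F)

theorem mem_gr {F : L →ₗ[K] L'} {g : Submodule K L} {z : L × L'} : z ∈ gr F g ↔ z.1 ∈ g ∧ z.2 = F z.1 := by
  unfold gr
  rw [Submodule.mem_map]
  constructor
  · rintro ⟨x, hx, rfl⟩
    exact ⟨hx, rfl⟩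
  · rintro ⟨h1, h2⟩
    exact ⟨z.1, h1, Prod.ext rfl h2.symm⟩

theorem gr_lie {F : L →ₗ[K] L'} {g h k : Submodule K L} (hb : ∀ x ∈ g, ∀ y ∈ h, ⁅x, y⁆ ∈ k ∧ F ⁅x, y⁆ = ⁅F x, F y⁆) :
    ∀ x ∈ gr F g, ∀ y ∈ gr F h, ⁅x, y⁆ ∈ gr F k := by
  intro x hx y hy
  obtain ⟨h1, h2⟩ := mem_gr.1 hx
  obtain ⟨h3, h4⟩ := mem_gr.1 hy
  obtain ⟨h5, h6⟩ := hb _ h1 _ h3
  refine mem_gr.2 ⟨h5, ?_⟩
  show ⁅x.2, y.2⁆ = F ⁅x.1, y.1⁆
  rw [h2, h4, h6]

/-- Kac's theorem: simple Lie algebras with isomorphic local parts are isomorphic. -/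
theorem local_iso [LieAlgebra.IsSimple K L] [LieAlgebra.IsSimple K L']
    {N P : LieSubalgebra K L} {gm g0 g1 : Submodule K L} {N' P' : LieSubalgebra K L'} {gm' g0' g1' : Submodule K L'}
    (hgm : ∀ x ∈ gm, x ∈ N) (hg1 : ∀ x ∈ g1, x ∈ P) (hgm' : ∀ x ∈ gm', x ∈ N') (hg1' : ∀ x ∈ g1', x ∈ P')
    (ind : ∀ n ∈ N, ∀ x ∈ g0, ∀ p ∈ P, n + x + p = 0 → x = 0)
    (ind' : ∀ n ∈ N', ∀ x ∈ g0', ∀ p ∈ P', n + x + p = 0 → x = 0)
    (gen : LieSubalgebra.lieSpan K L ((gm : Set L) ∪ g0 ∪ g1) = ⊤)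
    (gen' : LieSubalgebra.lieSpan K L' ((gm' : Set L') ∪ g0' ∪ g1') = ⊤)
    (F : L →ₗ[K] L') (hFm : gm.map F = gm') (hF0 : g0.map F = g0') (hF1 : g1.map F = g1') (h0 : g0' ≠ ⊥)
    (b00 : ∀ x ∈ g0, ∀ y ∈ g0, ⁅x, y⁆ ∈ g0 ∧ F ⁅x, y⁆ = ⁅F x, F y⁆)
    (b01 : ∀ x ∈ g0, ∀ y ∈ g1, ⁅x, y⁆ ∈ g1 ∧ F ⁅x, y⁆ = ⁅F x, F y⁆)
    (b0m : ∀ x ∈ g0, ∀ y ∈ gm, ⁅x, y⁆ ∈ gm ∧ F ⁅x, y⁆ = ⁅F x, F y⁆)
    (b1m : ∀ x ∈ g1, ∀ y ∈ gm, ⁅x, y⁆ ∈ g0 ∧ F ⁅x, y⁆ = ⁅F x, F y⁆) :
    ∃ e : L ≃ₗ⁅K⁆ L', ∀ x ∈ gm ⊔ g0 ⊔ g1, e x = F x := by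
  set D : LieSubalgebra K (L × L') := LieSubalgebra.lieSpan K (L × L')
    ((gr F gm : Set (L × L')) ∪ gr F g0 ∪ gr F g1) with hD
  -- the three parts of `D`
  have htri : ∀ z ∈ D, ∃ n ∈ N, ∃ n' ∈ N', ∃ x ∈ g0, ∃ p ∈ P, ∃ p' ∈ P', z = (n + x + p, n' + F x + p') := by
    intro z hz
    have h1 := lieSpan_tri (gr_lie b00) (gr_lie b01) (gr_lie b0m) (gr_lie b1m) hz
    obtain ⟨v, hv, b, hb, rfl⟩ := Submodule.mem_sup.1 h1
    obtain ⟨a, ha, c, hc, rfl⟩ := Submodule.mem_sup.1 hv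
    obtain ⟨hc1, hc2⟩ := mem_gr.1 hc
    have hb' : b ∈ P.comap (LieHom.fst K L L') ⊓ P'.comap (LieHom.snd K L L') := by
      have : LieSubalgebra.lieSpan K (L × L') (gr F g1 : Set (L × L')) ≤
          P.comap (LieHom.fst K L L') ⊓ P'.comap (LieHom.snd K L L') := by
        rw [LieSubalgebra.lieSpan_le]
        intro y hy
        obtain ⟨h3, h4⟩ := mem_gr.1 hy
        refine ⟨hg1 _ h3, ?_⟩
        show y.2 ∈ P'
        rw [h4]
        exact hg1' _ (hF1 ▸ Submodule.mem_map_of_mem h3)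
      exact this hb
    have ha' : a ∈ N.comap (LieHom.fst K L L') ⊓ N'.comap (LieHom.snd K L L') := by
      have : LieSubalgebra.lieSpan K (L × L') (gr F gm : Set (L × L')) ≤
          N.comap (LieHom.fst K L L') ⊓ N'.comap (LieHom.snd K L L') := by
        rw [LieSubalgebra.lieSpan_le]
        intro y hy
        obtain ⟨h3, h4⟩ := mem_gr.1 hy
        refine ⟨hgm _ h3, ?_⟩
        show y.2 ∈ N'
        rw [h4]
        exact hgm' _ (hFm ▸ Submodule.mem_map_of_mem h3)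
      exact this ha
    refine ⟨a.1, ha'.1, a.2, ha'.2, c.1, hc1, b.1, hb'.1, b.2, hb'.2, ?_⟩
    rw [← hc2]
    rfl
  -- the projections are onto
  have hfst : ∀ x : L, ∃ y, (x, y) ∈ D := by
    have h1 : D.map (LieHom.fst K L L') = ⊤ := by
      rw [hD, LieSubalgebra.map_lieSpan, eq_top_iff, ← gen]
      apply LieSubalgebra.lieSpan_mono
      rintro x ((hx | hx) | hx)
      · exact ⟨(x, F x), Or.inl (Or.inl (mem_gr.2 ⟨hx, rfl⟩)), rfl⟩
      · exact ⟨(x, F x), Or.inl (Or.inr (mem_gr.2 ⟨hx, rfl⟩)), rfl⟩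
      · exact ⟨(x, F x), Or.inr (mem_gr.2 ⟨hx, rfl⟩), rfl⟩
    intro x
    have h2 : x ∈ D.map (LieHom.fst K L L') := by rw [h1]; exact LieSubalgebra.mem_top x
    obtain ⟨z, hz, hzx⟩ := h2
    exact ⟨z.2, by rw [← hzx]; exact hz⟩
  have hsnd : ∀ y : L', ∃ x, (x, y) ∈ D := by
    have h1 : D.map (LieHom.snd K L L') = ⊤ := by
      rw [hD, LieSubalgebra.map_lieSpan, eq_top_iff, ← gen']
      apply LieSubalgebra.lieSpan_mono
      rintro x ((hx | hx) | hx)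
      · rw [SetLike.mem_coe, ← hFm] at hx
        obtain ⟨y, hy, rfl⟩ := hx
        exact ⟨(y, F y), Or.inl (Or.inl (mem_gr.2 ⟨hy, rfl⟩)), rfl⟩
      · rw [SetLike.mem_coe, ← hF0] at hx
        obtain ⟨y, hy, rfl⟩ := hx
        exact ⟨(y, F y), Or.inl (Or.inr (mem_gr.2 ⟨hy, rfl⟩)), rfl⟩
      · rw [SetLike.mem_coe, ← hF1] at hx
        obtain ⟨y, hy, rfl⟩ := hx
        exact ⟨(y, F y), Or.inr (mem_gr.2 ⟨hy, rfl⟩), rfl⟩
    intro x
    have h2 : x ∈ D.map (LieHom.snd K L L') := by rw [h1]; exact LieSubalgebra.mem_top x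
    obtain ⟨z, hz, hzx⟩ := h2
    exact ⟨z.1, by rw [← hzx]; exact hz⟩
  -- the kernel of the first projection
  let I' : LieIdeal K L' :=
    { carrier := {y | ((0 : L), y) ∈ D}
      add_mem' := fun {a b} ha hb => by
        have := add_mem (show ((0 : L), a) ∈ D from ha) (show ((0 : L), b) ∈ D from hb)
        simpa using this
      zero_mem' := zero_mem D
      smul_mem' := fun c {a} ha => by
        have := LieSubalgebra.smul_mem D c (show ((0 : L), a) ∈ D from ha)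
        simpa using this
      lie_mem := fun {x m} hm => by
        obtain ⟨u, hu⟩ := hsnd x
        have := LieSubalgebra.lie_mem D hu (show ((0 : L), m) ∈ D from hm)
        simpa [LieAlgebra.Prod.bracket_apply] using this }
  have hI' : I' = ⊥ := by
    refine (LieAlgebra.IsSimple.eq_bot_or_eq_top I').resolve_right ?_
    intro htop
    apply h0
    rw [eq_bot_iff]
    intro y hy
    have h1 : y ∈ I' := by rw [htop]; exact LieSubmodule.mem_top y
    obtain ⟨n, hn, n', hn', x, hx, p, hp, p', hp', he⟩ := htri _ (show ((0 : L), y) ∈ D from h1)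
    obtain ⟨he1, he2⟩ := Prod.mk.inj he
    have hx0 : x = 0 := ind n hn x hx p hp he1.symm
    rw [hx0, map_zero, add_zero] at he2
    have h2 : n' + -y + p' = 0 := by rw [he2]; abel
    have h3 := ind' n' hn' (-y) (neg_mem hy) p' hp' h2
    rw [neg_eq_zero] at h3
    rw [h3]
    exact zero_mem _
  have huniq : ∀ x : L, ∀ y y' : L', (x, y) ∈ D → (x, y') ∈ D → y = y' := by
    intro x y y' h1 h2
    have h3 : y - y' ∈ I' := by
      show ((0 : L), y - y') ∈ D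
      have := sub_mem h1 h2
      simpa using this
    rw [hI'] at h3
    exact sub_eq_zero.1 ((LieSubmodule.mem_bot _).1 h3)
  choose φ hφ using hfst
  let e0 : L →ₗ⁅K⁆ L' :=
    { toFun := φ
      map_add' := fun x y => huniq (x + y) _ _ (hφ _) (by
        have := add_mem (hφ x) (hφ y)
        simpa using this)
      map_smul' := fun c x => huniq (c • x) _ _ (hφ _) (by
        have := LieSubalgebra.smul_mem D c (hφ x)
        simpa using this)
      map_lie' := fun {x y} => huniq ⁅x, y⁆ _ _ (hφ _) (by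
        have := LieSubalgebra.lie_mem D (hφ x) (hφ y)
        simpa [LieAlgebra.Prod.bracket_apply] using this) }
  have he0 : ∀ x, e0 x = φ x := fun x => rfl
  have hsurj : Function.Surjective e0 := by
    intro y
    obtain ⟨x, hx⟩ := hsnd y
    exact ⟨x, huniq x _ _ (hφ x) hx⟩
  have hinj : Function.Injective e0 := by
    rw [← LieHom.ker_eq_bot]
    refine (LieAlgebra.IsSimple.eq_bot_or_eq_top e0.ker).resolve_right ?_
    intro htop
    apply h0
    rw [eq_bot_iff]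
    intro y _
    obtain ⟨x, rfl⟩ := hsurj y
    have h1 : x ∈ e0.ker := by rw [htop]; exact LieSubmodule.mem_top x
    rw [LieHom.mem_ker] at h1
    rw [h1]
    exact zero_mem _
  refine ⟨LieEquiv.ofBijective e0 ⟨hinj, hsurj⟩, ?_⟩
  intro x hx
  show φ x = F x
  refine huniq x _ _ (hφ x) ?_
  obtain ⟨v, hv, b, hb, rfl⟩ := Submodule.mem_sup.1 hx
  obtain ⟨a, ha, c, hc, rfl⟩ := Submodule.mem_sup.1 hv
  have h1 : ((a, F a) : L × L') ∈ D := LieSubalgebra.subset_lieSpan (Or.inl (Or.inl (mem_gr.2 ⟨ha, rfl⟩)))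
  have h2 : ((c, F c) : L × L') ∈ D := LieSubalgebra.subset_lieSpan (Or.inl (Or.inr (mem_gr.2 ⟨hc, rfl⟩)))
  have h3 : ((b, F b) : L × L') ∈ D := LieSubalgebra.subset_lieSpan (Or.inr (mem_gr.2 ⟨hb, rfl⟩))
  have h4 := add_mem (add_mem h1 h2) h3
  simpa using h4

end Pool.Agent.Helper68.KL
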